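import Pool.Agent.N940.EW.Defs

/-!
Project EW, part CNT: counting for the rotation near a rational one.
-/

open MeasureTheory ProbabilityTheory Filter Topology

namespace Pool.Agent.N940.EW.Cnt

open Pool.Agent.N940.EW

/-- sites with cookies lie in the small residue classes -/
theorem key (th x : ℝ) (P : ℤ) (Q n m : ℕ) (hQ : Q = 2 * m + 1)
    (h : Int.fract (Q * x) ∈ Set.Ico (1 / 2 + Q * (n * |th - P / Q|))
      (1 - Q * (n * |th - P / Q|))) (z : ℤ) (hz : |z| ≤ (n : ℤ)) (hr : rot th x z) :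
    (⌊(Q : ℝ) * x⌋ + z * P) % (Q : ℤ) < (m : ℤ) := by
  have hQ0 : (0 : ℝ) < Q := by
    rw [hQ]; push_cast; positivity
  have hQz : (0 : ℤ) < Q := by rw [hQ]; push_cast; positivity
  set w : ℤ := ⌊(Q : ℝ) * x⌋ + z * P with hw
  set k : ℤ := w % (Q : ℤ) with hk
  have hk0 : 0 ≤ k := Int.emod_nonneg _ hQz.ne'
  have hk1 : k < Q := Int.emod_lt_of_pos _ hQz
  have hwk : (Q : ℤ) * (w / Q) + k = w := Int.mul_ediv_add_emod w Q
  set r : ℝ := Int.fract ((Q : ℝ) * x) with hrr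
  have hx : (Q : ℝ) * x = ⌊(Q : ℝ) * x⌋ + r := (Int.floor_add_fract _).symm
  set τ : ℝ := n * |th - P / Q| with hτ
  set η : ℝ := z * (th - P / Q) with hη
  have hηt : |η| ≤ τ := by
    rw [hη, hτ, abs_mul]
    apply mul_le_mul_of_nonneg_right _ (abs_nonneg _)
    exact_mod_cast hz
  have hη1 := (abs_le.1 hηt).1
  have hη2 := (abs_le.1 hηt).2
  have hρ1 : 1 / 2 ≤ r + Q * η := by
    have h1 := h.1
    nlinarith
  have hρ2 : r + Q * η < 1 := by
    have h1 := h.2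
    nlinarith
  have hk0' : (0 : ℝ) ≤ k := by exact_mod_cast hk0
  have hk1' : (k : ℝ) ≤ Q - 1 := by
    have : k ≤ (Q : ℤ) - 1 := by omega
    exact_mod_cast this
  have hfr : Int.fract (x + z * th) = (k + (r + Q * η)) / Q := by
    rw [Int.fract_eq_iff]
    refine ⟨by positivity, ?_, w / Q, ?_⟩
    · rw [div_lt_one hQ0]
      linarith
    · have h1 : ((Q : ℝ)) * ((w / (Q : ℤ) : ℤ) : ℝ) + k = ⌊(Q : ℝ) * x⌋ + z * P := by
        exact_mod_cast hwk
      have h2 : (Q : ℝ) * η = z * (Q * th) - z * P := by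
        rw [hη]
        field_simp
      rw [h2]
      have h3 : x + z * th = ((Q : ℝ) * x + z * (Q * th)) / Q := by
        field_simp
      rw [h3, ← sub_div, div_eq_iff hQ0.ne']
      linarith
  have hlt : (k + (r + Q * η)) / Q < 1 / 2 := by
    rw [← hfr]; exact hr
  rw [div_lt_iff₀ hQ0] at hlt
  have hQm : (Q : ℝ) = 2 * m + 1 := by rw [hQ]; push_cast; ring
  have : (k : ℝ) < m := by linarith
  exact_mod_cast this

theorem main : S_CNT := by
  classical
  intro th x P Q n hodd hcop h s t hst hs ht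
  obtain ⟨m, hm⟩ := hodd
  obtain ⟨a, b, hab⟩ := hcop
  have hQz : (0 : ℤ) < Q := by rw [hm]; push_cast; positivity
  have hQ0 : (0 : ℝ) < Q := by exact_mod_cast hQz
  have hQm : (Q : ℝ) = 2 * m + 1 := by rw [hm]; push_cast; ring
  set f : ℤ := ⌊(Q : ℝ) * x⌋ with hf
  have hsub : (Finset.Icc s t).filter (rot th x) ⊆
      (Finset.range m).biUnion fun c =>
        (Finset.Ioc (s - 1) t).filter fun z => z ≡ a * ((c : ℤ) - f) [ZMOD (Q : ℤ)] := by
    intro z hz
    rw [Finset.mem_filter, Finset.mem_Icc] at hz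
    obtain ⟨⟨hz1, hz2⟩, hz3⟩ := hz
    have hk := key th x P Q n m hm h z (abs_le.2 ⟨by omega, by omega⟩) hz3
    set k : ℤ := (f + z * P) % (Q : ℤ) with hkd
    have hk0 : 0 ≤ k := Int.emod_nonneg _ hQz.ne'
    rw [Finset.mem_biUnion]
    refine ⟨k.toNat, ?_, ?_⟩
    · rw [Finset.mem_range]
      omega
    · rw [Finset.mem_filter, Finset.mem_Ioc]
      refine ⟨⟨by omega, hz2⟩, ?_⟩
      rw [Int.toNat_of_nonneg hk0]
      have h1 : f + z * P ≡ k [ZMOD (Q : ℤ)] := (Int.mod_modEq _ _).symm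
      have h2 : z * P ≡ k - f [ZMOD (Q : ℤ)] := by
        have := h1.sub (Int.ModEq.refl f)
        simpa using this
      have h3 : a * (z * P) ≡ a * (k - f) [ZMOD (Q : ℤ)] := h2.mul_left a
      have h4 : z ≡ a * (z * P) [ZMOD (Q : ℤ)] := by
        rw [Int.modEq_iff_dvd]
        refine ⟨-(b * z), ?_⟩
        linear_combination z * hab
      exact h4.trans h3
  have hclass : ∀ c : ℕ, ((((Finset.Ioc (s - 1) t).filter fun z =>
      z ≡ a * ((c : ℤ) - f) [ZMOD (Q : ℤ)]).card : ℕ) : ℝ) ≤ ((t : ℝ) - s + 1) / Q + 1 := by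
    intro c
    have h1 := Int.Ioc_filter_modEq_card (s - 1) t hQz (a * ((c : ℤ) - f))
    set N := ((Finset.Ioc (s - 1) t).filter fun z =>
      z ≡ a * ((c : ℤ) - f) [ZMOD (Q : ℤ)]).card with hN
    set v : ℤ := a * ((c : ℤ) - f) with hv
    have hQq : (0 : ℚ) < (Q : ℤ) := by exact_mod_cast hQz
    have h2 : (N : ℚ) ≤ ((t : ℚ) - s + 1) / (Q : ℤ) + 1 := by
      have h3 : ((N : ℤ) : ℚ) = ((max (⌊((t - v : ℤ) : ℚ) / ((Q : ℤ) : ℚ)⌋ -
          ⌊(((s - 1) - v : ℤ) : ℚ) / ((Q : ℤ) : ℚ)⌋) 0 : ℤ) : ℚ) := by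
        rw [h1]
        push_cast
        rfl
      have h4 : ((N : ℤ) : ℚ) = (N : ℚ) := by push_cast; rfl
      rw [← h4, h3]
      rcases max_cases (⌊((t - v : ℤ) : ℚ) / ((Q : ℤ) : ℚ)⌋ -
          ⌊(((s - 1) - v : ℤ) : ℚ) / ((Q : ℤ) : ℚ)⌋) 0 with ⟨h5, -⟩ | ⟨h5, -⟩
      · rw [h5]
        push_cast
        have h6 := Int.floor_le (((t : ℚ) - v) / ((Q : ℤ) : ℚ))
        have h7 := Int.lt_floor_add_one (((s : ℚ) - 1 - v) / ((Q : ℤ) : ℚ))
        have h8 : ((t : ℚ) - v) / ((Q : ℤ) : ℚ) - ((s : ℚ) - 1 - v) / ((Q : ℤ) : ℚ) =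
            ((t : ℚ) - s + 1) / ((Q : ℤ) : ℚ) := by
          rw [← sub_div]; congr 1; ring
        push_cast at h6 h7 h8
        linarith
      · rw [h5]
        have h6 : (0 : ℚ) ≤ (t : ℚ) - s + 1 := by
          have : (0 : ℤ) ≤ t - s + 1 := by omega
          exact_mod_cast this
        have h7 := div_nonneg h6 hQq.le
        push_cast at h7 ⊢
        linarith
    have h9 : ((N : ℚ) : ℝ) ≤ ((((t : ℚ) - s + 1) / (Q : ℤ) + 1 : ℚ) : ℝ) := by
      exact_mod_cast h2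
    push_cast at h9
    exact h9
  unfold cnt
  calc (((Finset.Icc s t).filter (rot th x)).card : ℝ)
      ≤ (((Finset.range m).biUnion fun c =>
        (Finset.Ioc (s - 1) t).filter fun z => z ≡ a * ((c : ℤ) - f) [ZMOD (Q : ℤ)]).card : ℝ) := by
        exact_mod_cast Finset.card_le_card hsub
    _ ≤ ∑ c ∈ Finset.range m, (((Finset.Ioc (s - 1) t).filter fun z =>
        z ≡ a * ((c : ℤ) - f) [ZMOD (Q : ℤ)]).card : ℝ) := by
        exact_mod_cast Finset.card_biUnion_le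
    _ ≤ ∑ c ∈ Finset.range m, (((t : ℝ) - s + 1) / Q + 1) := Finset.sum_le_sum fun c _ => hclass c
    _ = m * (((t : ℝ) - s + 1) / Q + 1) := by
        rw [Finset.sum_const, Finset.card_range, nsmul_eq_mul]
    _ ≤ ((t : ℝ) - s + 1) * (1 - 1 / Q) / 2 + Q / 2 := by
        have h1 : (m : ℝ) = (Q - 1) / 2 := by linarith
        rw [h1]
        have h2 : ((t : ℝ) - s + 1) * (1 - 1 / Q) / 2 = ((Q : ℝ) - 1) / 2 * (((t : ℝ) - s + 1) / Q) := by
          field_simp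
        rw [h2]
        linarith

end Pool.Agent.N940.EW.Cnt
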