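import Mathlib

/-!
Project EW: the critical excited random walk in a stationary ergodic environment.
Definitions.
-/

open MeasureTheory ProbabilityTheory Filter Topology

namespace Pool.Agent.N940.EW

noncomputable section

open Classical in
/-- The walk in the environment `e` with marks `U`: at time `n` it is the `i`-th visit to the
present site `x`, and the walk goes to `x + 1` if `U n < e x i` and to `x - 1` otherwise. -/
def X (e : ℤ → ℕ → ℝ) (U : ℕ → ℝ) : ℕ → ℤ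
  | 0 => 0
  | (n + 1) =>
    if U n < e (X e U n)
      ((Finset.univ.filter (fun j : Fin (n + 1) => X e U j = X e U n)).card)
    then X e U n + 1 else X e U n - 1

open Classical in
/-- Number of visits to the present site up to time `n`. -/
def vis (e : ℤ → ℕ → ℝ) (U : ℕ → ℝ) (n : ℕ) : ℕ :=
  (Finset.univ.filter (fun j : Fin (n + 1) => X e U j = X e U n)).card

/-- Probability of a step to the right at time `n`. -/
def pr (e : ℤ → ℕ → ℝ) (U : ℕ → ℝ) (n : ℕ) : ℝ := e (X e U n) (vis e U n)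

/-- The walk minus its compensator. -/
def Bn (e : ℤ → ℕ → ℝ) (U : ℕ → ℝ) (n : ℕ) : ℝ :=
  (X e U n : ℝ) - ∑ k ∈ Finset.range n, (2 * pr e U k - 1)

/-- Law of the marks: independent uniform variables on `[0, 1]`. -/
def marks : Measure (ℕ → ℝ) :=
  Measure.infinitePi (fun _ : ℕ => (volume : Measure ℝ).restrict (Set.Icc 0 1))

/-- Shift of the environment. -/
def shift (e : ℤ → ℕ → ℝ) : ℤ → ℕ → ℝ := fun z => e (z + 1)

open Classical in
/-- The environment with four cookies of strength `3/4` at the sites of `A`. -/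
def envA (A : ℤ → Prop) (z : ℤ) (i : ℕ) : ℝ := if A z ∧ i ≤ 4 then 3 / 4 else 1 / 2

/-- The sites with cookies: visits of the rotation by `th` to the half circle. -/
def rot (th x : ℝ) (z : ℤ) : Prop := Int.fract (x + z * th) < 1 / 2

/-- The environment of the rotation. -/
def env (th x : ℝ) : ℤ → ℕ → ℝ := envA (rot th x)

/-- Law of the environment. -/
def lawE (th : ℝ) : Measure (ℤ → ℕ → ℝ) :=
  ((volume : Measure ℝ).restrict (Set.Ioc 0 1)).map (env th)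

open Classical in
/-- number of sites of `A` in `[s, t]` -/
def cnt (A : ℤ → Prop) (s t : ℤ) : ℕ := ((Finset.Icc s t).filter A).card

/-- Counting bound: `A` has at most the density `(1 - 1/Q)/2` on intervals in `[-n, n]`. -/
def CB (A : ℤ → Prop) (Q n : ℕ) : Prop :=
  ∀ s t : ℤ, s ≤ t → -(n : ℤ) ≤ s → t ≤ n →
    (cnt A s t : ℝ) ≤ ((t : ℝ) - s + 1) * (1 - 1 / Q) / 2 + Q / 2

/-! ### statements -/

/-- Doob's maximal inequality for the compensated walk in a fixed environment. -/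
def S_MART : Prop := ∀ (e : ℤ → ℕ → ℝ), (∀ z i, 0 ≤ e z i ∧ e z i ≤ 1) →
  ∀ (n : ℕ) (a : ℝ), 0 < a →
  marks {U | ∃ k, k ≤ n ∧ a ≤ |Bn e U k|} ≤ ENNReal.ofReal ((n : ℝ) / a ^ 2)

/-- Joint measurability. -/
def S_MEAS : Prop := ∀ n : ℕ,
  Measurable (fun q : (ℤ → ℕ → ℝ) × (ℕ → ℝ) => X q.1 q.2 n) ∧
  ∀ (th : ℝ), Measurable (env th)

/-- Deterministic bound of the walk. -/
def S_DET : Prop := ∀ (A : ℤ → Prop) (U : ℕ → ℝ) (n Q : ℕ) (a : ℝ), 1 ≤ Q → CB A Q n →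
  (∀ k, k ≤ n → |Bn (envA A) U k| ≤ a) →
  (X (envA A) U n : ℝ) ≤ Q * (2 * a + Q + 1)

/-- Counting for the rotation near a rational one. -/
def S_CNT : Prop := ∀ (th x : ℝ) (P : ℤ) (Q n : ℕ), Odd Q → IsCoprime P (Q : ℤ) →
  Int.fract (Q * x) ∈ Set.Ico (1 / 2 + Q * (n * |th - P / Q|)) (1 - Q * (n * |th - P / Q|)) →
  CB (rot th x) Q n

/-- A Liouville number with odd denominators. -/
def S_LIO : Prop := ∃ th : ℝ, Irrational th ∧ ∀ N : ℕ, ∃ (P : ℤ) (Q : ℕ), N ≤ Q ∧ Odd Q ∧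
  IsCoprime P (Q : ℤ) ∧ (3 : ℝ) ^ (Q ^ 2) * |th - P / Q| ≤ 1 / (16 * Q)

/-- Ergodicity and parameters of the environment. -/
def S_ERG : Prop := ∀ th : ℝ, Irrational th → IsProbabilityMeasure (lawE th) ∧
  Ergodic shift (lawE th)

def S_PAR : Prop := ∀ th : ℝ,
  (∀ᵐ e ∂(lawE th), ∀ z i, 1 / 2 ≤ e z i ∧ e z i ≤ 3 / 4) ∧
  (∀ᵐ e ∂(lawE th), ∀ z i, 4 < i → e z i = 1 / 2) ∧
  Integrable (fun e : ℤ → ℕ → ℝ => ∑' i : ℕ, (2 * e 0 (i + 1) - 1)) (lawE th) ∧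
  ∫ e, ∑' i : ℕ, (2 * e 0 (i + 1) - 1) ∂(lawE th) = 1 ∧
  ∀ ep : ℝ, 0 < ep → Integrable
    (fun e : ℤ → ℕ → ℝ => ((sSup {i : ℕ | 1 ≤ i ∧ ep ≤ |e 0 i - 1 / 2|} : ℕ) : ℝ)) (lawE th)

/-- Measure of the good phases. -/
def S_MGD : Prop := ∀ (Q : ℕ) (t : ℝ), 1 ≤ Q → 0 ≤ t → t ≤ 1 / 8 →
  ENNReal.ofReal (1 / 4) ≤ ((volume : Measure ℝ).restrict (Set.Ioc 0 1))
    {x | Int.fract (Q * x) ∈ Set.Ico (1 / 2 + t) (1 - t)}

/-- Final probabilistic statement. -/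
def S_FIN : Prop := ∃ th : ℝ, Irrational th ∧ ∀ et : ℝ, 0 < et → ∃ᶠ n : ℕ in atTop,
  (1 / 5 : ℝ) ≤ (((lawE th).prod marks)
    {q | (X q.1 q.2 n : ℝ) ≤ et * (Real.sqrt n * Real.log n)}).toReal

end

end Pool.Agent.N940.EW
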