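import Pool.Agent.N940.EW.Defs

/-!
EW/DET: the deterministic bound of the walk (project of helper940, written by helper935).
-/

set_option autoImplicit false

open Finset

namespace Pool.Agent.N940.EW.Det

lemma X_zero (e : ℤ → ℕ → ℝ) (U : ℕ → ℝ) : X e U 0 = 0 := by
  rw [X]

lemma X_succ (e : ℤ → ℕ → ℝ) (U : ℕ → ℝ) (n : ℕ) :
    X e U (n + 1) = X e U n + 1 ∨ X e U (n + 1) = X e U n - 1 := by
  rw [X]
  split_ifs
  · exact Or.inl rfl
  · exact Or.inr rfl

lemma X_abs (e : ℤ → ℕ → ℝ) (U : ℕ → ℝ) (n : ℕ) : -(n : ℤ) ≤ X e U n ∧ X e U n ≤ n := by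
  induction n with
  | zero => rw [X_zero]; simp
  | succ n ih =>
    rcases X_succ e U n with h | h <;> rw [h] <;> push_cast <;> constructor <;> omega

lemma vis_eq (e : ℤ → ℕ → ℝ) (U : ℕ → ℝ) (n : ℕ) :
    vis e U n = ((range (n + 1)).filter (fun j => X e U j = X e U n)).card := by
  unfold vis
  refine Finset.card_bij (fun (j : Fin (n + 1)) _ => (j : ℕ)) ?_ ?_ ?_
  · intro j hj
    rw [mem_filter] at hj ⊢
    exact ⟨mem_range.2 j.2, hj.2⟩
  · intro i _ j _ hij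
    exact Fin.ext hij
  · intro j hj
    rw [mem_filter, mem_range] at hj
    exact ⟨⟨j, hj.1⟩, mem_filter.2 ⟨mem_univ _, hj.2⟩, rfl⟩

lemma vis_pos (e : ℤ → ℕ → ℝ) (U : ℕ → ℝ) (n : ℕ) : 1 ≤ vis e U n := by
  rw [vis_eq]
  exact Finset.card_pos.2 ⟨n, mem_filter.2 ⟨mem_range.2 (Nat.lt_succ_self n), rfl⟩⟩

lemma vis_lt (e : ℤ → ℕ → ℝ) (U : ℕ → ℝ) {i j : ℕ} (hij : i < j) (h : X e U i = X e U j) :
    vis e U i < vis e U j := by
  rw [vis_eq, vis_eq]
  apply Finset.card_lt_card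
  rw [Finset.ssubset_iff_of_subset]
  · refine ⟨j, mem_filter.2 ⟨mem_range.2 (Nat.lt_succ_self j), rfl⟩, ?_⟩
    intro hj
    rw [mem_filter, mem_range] at hj
    omega
  · intro k hk
    rw [mem_filter, mem_range] at hk ⊢
    exact ⟨by omega, hk.2.trans h⟩

open Classical in
lemma pr_eq (A : ℤ → Prop) (U : ℕ → ℝ) (k : ℕ) : 2 * pr (envA A) U k - 1 =
    if A (X (envA A) U k) ∧ vis (envA A) U k ≤ 4 then 1 / 2 else 0 := by
  unfold pr
  have : ∀ z i, envA A z i = if A z ∧ i ≤ 4 then 3 / 4 else 1 / 2 := fun z i => rfl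
  rw [this]
  split_ifs <;> norm_num

open Classical in
lemma count (A : ℤ → Prop) (U : ℕ → ℝ) (k : ℕ) (s t : ℤ)
    (hst : ∀ j < k, s ≤ X (envA A) U j ∧ X (envA A) U j ≤ t) :
    ∑ j ∈ range k, (2 * pr (envA A) U j - 1) ≤ 2 * (cnt A s t : ℝ) := by
  simp only [pr_eq]
  rw [← Finset.sum_filter, Finset.sum_const, nsmul_eq_mul]
  have h1 : ((range k).filter (fun j => A (X (envA A) U j) ∧ vis (envA A) U j ≤ 4)).card ≤
      (((Finset.Icc s t).filter A) ×ˢ (Finset.Icc 1 4)).card := by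
    refine Finset.card_le_card_of_injOn (fun j => (X (envA A) U j, vis (envA A) U j)) ?_ ?_
    · intro j hj
      rw [mem_coe, mem_filter, mem_range] at hj
      rw [mem_coe, mem_product, mem_filter, mem_Icc, mem_Icc]
      exact ⟨⟨hst j hj.1, hj.2.1⟩, vis_pos _ _ _, hj.2.2⟩
    · intro i _ j _ hij
      have h2 : X (envA A) U i = X (envA A) U j := congrArg Prod.fst hij
      have h3 : vis (envA A) U i = vis (envA A) U j := congrArg Prod.snd hij
      rcases lt_trichotomy i j with h | h | h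
      · exact absurd h3 (vis_lt _ _ h h2).ne
      · exact h
      · exact absurd h3 (vis_lt _ _ h h2.symm).ne'
  rw [card_product] at h1
  have h4 : (Finset.Icc 1 4 : Finset ℕ).card = 4 := by simp
  rw [h4] at h1
  have h5 : (((range k).filter (fun j => A (X (envA A) U j) ∧ vis (envA A) U j ≤ 4)).card : ℝ) ≤
      (cnt A s t : ℝ) * 4 := by
    have h6 : ((Finset.Icc s t).filter A).card = cnt A s t := rfl
    rw [h6] at h1
    exact_mod_cast h1
  linarith

lemma D_nonneg (A : ℤ → Prop) (U : ℕ → ℝ) (k : ℕ) :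
    0 ≤ ∑ j ∈ range k, (2 * pr (envA A) U j - 1) := by
  classical
  refine Finset.sum_nonneg fun j _ => ?_
  rw [pr_eq]
  split_ifs <;> norm_num

theorem main : S_DET := by
  intro A U n Q a hQ hCB hB
  obtain ⟨k₁, hk₁, hmin⟩ := (range (n + 1)).exists_min_image (fun k => X (envA A) U k)
    ⟨0, mem_range.2 (Nat.succ_pos n)⟩
  obtain ⟨k₂, hk₂, hmax⟩ := (range (n + 1)).exists_max_image (fun k => X (envA A) U k)
    ⟨0, mem_range.2 (Nat.succ_pos n)⟩
  rw [mem_range] at hk₁ hk₂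
  obtain ⟨s, hs⟩ : ∃ s, s = X (envA A) U k₁ := ⟨_, rfl⟩
  obtain ⟨t, ht⟩ : ∃ t, t = X (envA A) U k₂ := ⟨_, rfl⟩
  simp only [← hs] at hmin
  simp only [← ht] at hmax
  have hs0 : s ≤ 0 := by
    have := hmin 0 (mem_range.2 (Nat.succ_pos n))
    rwa [X_zero] at this
  have ht0 : 0 ≤ t := by
    have := hmax 0 (mem_range.2 (Nat.succ_pos n))
    rwa [X_zero] at this
  have hsn : -(n : ℤ) ≤ s := by
    have := (X_abs (envA A) U k₁).1
    rw [← hs] at this
    omega
  have htn : t ≤ n := by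
    have := (X_abs (envA A) U k₂).2
    rw [← ht] at this
    omega
  have hC := hCB s t (hs0.trans ht0) hsn htn
  have hD := count A U k₂ s t (fun j hj =>
    ⟨hmin j (mem_range.2 (by omega)), hmax j (mem_range.2 (by omega))⟩)
  have hB1 := (abs_le.1 (hB k₁ (by omega))).1
  have hB2 := (abs_le.1 (hB k₂ (by omega))).2
  unfold Bn at hB1 hB2
  rw [← hs] at hB1
  rw [← ht] at hB2
  have hD1 := D_nonneg A U k₁
  have hXn : (X (envA A) U n : ℝ) ≤ t := by
    exact_mod_cast hmax n (mem_range.2 (Nat.lt_succ_self n))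
  have hQr : (1 : ℝ) ≤ Q := by exact_mod_cast hQ
  have hQ0 : (0 : ℝ) < Q := by linarith
  have hs0r : (s : ℝ) ≤ 0 := by exact_mod_cast hs0
  have hsa : -(s : ℝ) ≤ a := by linarith
  have h1 : (t : ℝ) ≤ a + ((t : ℝ) - s + 1) * (1 - 1 / Q) + Q := by linarith
  have h2 : (t : ℝ) / Q ≤ 2 * a + Q + 1 := by
    have h3 : (0 : ℝ) ≤ 1 / Q := by positivity
    have h4 : (t : ℝ) / Q = t - t * (1 - 1 / Q) := by
      field_simp
      ring
    have h5 : (-(s : ℝ) + 1) * (1 - 1 / Q) ≤ a + 1 := by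
      have : (-(s : ℝ) + 1) * (1 - 1 / Q) ≤ (-(s : ℝ) + 1) * 1 :=
        mul_le_mul_of_nonneg_left (by linarith) (by linarith)
      linarith
    rw [h4]
    nlinarith
  rw [div_le_iff₀ hQ0] at h2
  linarith

end Pool.Agent.N940.EW.Det
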