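import Pool.Agent.N940.EW.Defs

/-!
Project EW, part ERG: the law of the environment is ergodic under the shift.
-/

set_option autoImplicit false

open MeasureTheory ProbabilityTheory Filter Topology

namespace Pool.Agent.N940.EW.Erg

theorem env_apply (th x : ℝ) (z : ℤ) (i : ℕ) [Decidable (Int.fract (x + z * th) < 1 / 2 ∧ i ≤ 4)] :
    env th x z i = if Int.fract (x + z * th) < 1 / 2 ∧ i ≤ 4 then 3 / 4 else 1 / 2 := by
  unfold env envA rot
  congr

theorem measurable_env (th : ℝ) : Measurable (env th) := by
  classical
  rw [measurable_pi_iff]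
  intro z
  rw [measurable_pi_iff]
  intro i
  have h : (fun x => env th x z i) =
      fun x => if Int.fract (x + z * th) < 1 / 2 ∧ i ≤ 4 then (3 / 4 : ℝ) else 1 / 2 := by
    funext x
    exact env_apply th x z i
  rw [h]
  refine Measurable.ite ?_ measurable_const measurable_const
  have hf : Measurable fun x : ℝ => Int.fract (x + z * th) :=
    measurable_fract.comp (measurable_id.add_const _)
  by_cases hi : i ≤ 4
  · simp only [hi, and_true]
    exact measurableSet_lt hf measurable_const
  · simp only [hi, and_false]
    exact MeasurableSet.empty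

theorem env_periodic (th : ℝ) : Function.Periodic (env th) 1 := by
  classical
  intro x
  funext z i
  rw [env_apply, env_apply]
  have : x + 1 + z * th = x + z * th + 1 := by ring
  rw [this, Int.fract_add_one]

theorem shift_env (th x : ℝ) : shift (env th x) = env th (x + th) := by
  classical
  funext z i
  unfold shift
  rw [env_apply, env_apply]
  have : x + ((z + 1 : ℤ) : ℝ) * th = x + th + z * th := by push_cast; ring
  rw [this]

/-- the environment as a function on the circle -/
noncomputable def G (th : ℝ) : UnitAddCircle → (ℤ → ℕ → ℝ) := (env_periodic th).lift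

theorem G_coe (th x : ℝ) : G th (x : UnitAddCircle) = env th x := (env_periodic th).lift_coe x

theorem measurable_G (th : ℝ) : Measurable (G th) := by
  have h : G th = fun y => env th ((AddCircle.measurableEquivIoc (1 : ℝ) 0 y : Set.Ioc (0 : ℝ) (0 + 1)) : ℝ) := by
    funext y
    have hy : (((AddCircle.measurableEquivIoc (1 : ℝ) 0 y : Set.Ioc (0 : ℝ) (0 + 1)) : ℝ) : UnitAddCircle) = y :=
      (AddCircle.equivIoc (1 : ℝ) 0).symm_apply_apply y
    rw [← G_coe, hy]
  rw [h]
  exact (measurable_env th).comp
    (measurable_subtype_coe.comp (AddCircle.measurableEquivIoc (1 : ℝ) 0).measurable)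

theorem map_G (th : ℝ) : MeasurePreserving (G th) (volume : Measure UnitAddCircle) (lawE th) := by
  refine ⟨measurable_G th, ?_⟩
  have h1 := UnitAddCircle.measurePreserving_mk 0
  rw [zero_add] at h1
  unfold lawE
  rw [← h1.map_eq, Measure.map_map (measurable_G th) h1.measurable]
  congr 1

theorem shift_G (th : ℝ) : Function.Semiconj (G th) (fun y => y + (th : UnitAddCircle)) shift := by
  intro y
  induction y using QuotientAddGroup.induction_on with
  | H x =>
    have h1 : ((x : ℝ) : UnitAddCircle) + (th : UnitAddCircle) = ((x + th : ℝ) : UnitAddCircle) := rfl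
    change G th (((x : ℝ) : UnitAddCircle) + (th : UnitAddCircle)) = shift (G th ((x : ℝ) : UnitAddCircle))
    rw [h1, G_coe, G_coe, shift_env]

theorem measurable_shift : Measurable shift :=
  measurable_pi_lambda _ fun z => measurable_pi_apply (z + 1)

theorem order_zero (th : ℝ) (h : Irrational th) : addOrderOf (th : UnitAddCircle) = 0 := by
  rw [addOrderOf_eq_zero_iff']
  intro n hn h0
  have h1 : ((n * th : ℝ) : UnitAddCircle) = 0 := by
    rw [← h0, ← AddCircle.coe_nsmul, nsmul_eq_mul]
  obtain ⟨m, hm⟩ := (AddCircle.coe_eq_zero_iff (1 : ℝ)).mp h1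
  rw [zsmul_eq_mul, mul_one] at hm
  apply h
  refine ⟨(m : ℚ) / n, ?_⟩
  have hn' : (n : ℝ) ≠ 0 := by exact_mod_cast hn.ne'
  push_cast
  rw [hm]
  field_simp

theorem main : S_ERG := by
  intro th hth
  have hG := map_G th
  have hR : Ergodic (fun y : UnitAddCircle => y + (th : UnitAddCircle)) :=
    AddCircle.ergodic_add_right.mpr (order_zero th hth)
  have hpm : IsProbabilityMeasure (lawE th) := by
    have h1 : IsProbabilityMeasure (volume : Measure UnitAddCircle) := ⟨UnitAddCircle.measure_univ⟩
    rw [← hG.map_eq]
    exact Measure.isProbabilityMeasure_map hG.measurable.aemeasurable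
  refine ⟨hpm, ?_⟩
  have hmp : MeasurePreserving shift (lawE th) (lawE th) := by
    refine ⟨measurable_shift, ?_⟩
    rw [← hG.map_eq, Measure.map_map measurable_shift hG.measurable]
    have h1 : shift ∘ G th = G th ∘ fun y => y + (th : UnitAddCircle) := by
      funext y
      exact (shift_G th y).symm
    rw [h1, ← Measure.map_map hG.measurable hR.measurable, hR.map_eq]
  exact ⟨hmp, hG.preErgodic_of_preErgodic_semiconj hR.toPreErgodic (shift_G th)⟩

end Pool.Agent.N940.EW.Erg
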