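import Pool.Agent.N940.EW.Defs

/-!
Project EW: assembly.
-/

open MeasureTheory ProbabilityTheory Filter Topology

namespace Pool.Agent.N940.EW.Fin

open Pool.Agent.N940.EW

theorem prob_unif : IsProbabilityMeasure ((volume : Measure ℝ).restrict (Set.Icc (0 : ℝ) 1)) :=
  ⟨by simp⟩

instance : IsProbabilityMeasure marks := by
  have := prob_unif
  unfold marks
  infer_instance

theorem numer {et : ℝ} (het : 0 < et) {Q : ℕ} (hQ : 8 / et ≤ Q) (hQ1 : 3 ≤ Q) :
    (Q : ℝ) * (2 * (3 * Real.sqrt ((3 ^ (Q ^ 2) : ℕ) : ℝ)) + Q + 1)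
      ≤ et * (Real.sqrt ((3 ^ (Q ^ 2) : ℕ) : ℝ) * Real.log ((3 ^ (Q ^ 2) : ℕ) : ℝ)) := by
  set s : ℝ := Real.sqrt ((3 ^ (Q ^ 2) : ℕ) : ℝ) with hs
  have hQr : (3 : ℝ) ≤ Q := by exact_mod_cast hQ1
  have h1 : (Q : ℝ) + 1 ≤ s := by
    rw [hs]
    refine Real.le_sqrt_of_sq_le ?_
    have h2 : (Q + 1) ^ 2 ≤ 3 ^ (Q ^ 2) := by
      have h3 : Q ^ 2 < 2 ^ (Q ^ 2) := Nat.lt_two_pow_self
      have h4 : 2 * (Q + 1) ^ 2 ≤ 4 * Q ^ 2 := by nlinarith
      have h5 : 2 * Q ^ 2 ≤ 3 ^ (Q ^ 2) := by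
        have h6 : 2 * 2 ^ (Q ^ 2) ≤ 3 ^ (Q ^ 2) := by
          have h7 : ∀ k, 2 ≤ k → 2 * 2 ^ k ≤ 3 ^ k := by
            intro k hk
            induction k, hk using Nat.le_induction with
            | base => norm_num
            | succ k _ ih =>
              rw [pow_succ, pow_succ]
              omega
          exact h7 _ (by nlinarith)
        omega
      omega
    exact_mod_cast h2
  have hlog : (Q : ℝ) ^ 2 ≤ Real.log ((3 ^ (Q ^ 2) : ℕ) : ℝ) := by
    push_cast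
    rw [Real.log_pow]
    have h3 : 1 ≤ Real.log 3 := by
      rw [Real.le_log_iff_exp_le (by norm_num)]
      linarith [Real.exp_one_lt_d9]
    push_cast
    nlinarith [sq_nonneg (Q : ℝ)]
  have hs0 : 0 < s := by linarith
  have h8 : 8 ≤ et * Q := by
    rw [div_le_iff₀ het] at hQ
    linarith
  calc (Q : ℝ) * (2 * (3 * s) + Q + 1) ≤ Q * (8 * s) := by
        refine mul_le_mul_of_nonneg_left ?_ (by positivity)
        linarith
    _ ≤ Q * ((et * Q) * s) := by
        refine mul_le_mul_of_nonneg_left ?_ (by positivity)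
        exact mul_le_mul_of_nonneg_right h8 hs0.le
    _ = et * (s * (Q : ℝ) ^ 2) := by ring
    _ ≤ et * (s * Real.log ((3 ^ (Q ^ 2) : ℕ) : ℝ)) := by
        refine mul_le_mul_of_nonneg_left ?_ het.le
        exact mul_le_mul_of_nonneg_left hlog hs0.le

theorem main (hM : S_MART) (hMe : S_MEAS) (hD : S_DET) (hC : S_CNT) (hL : S_LIO)
    (hG : S_MGD) : S_FIN := by
  obtain ⟨th, hirr, hth⟩ := hL
  refine ⟨th, hirr, ?_⟩
  intro et het
  rw [frequently_atTop]
  intro N0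
  obtain ⟨P, Q, hNQ, hodd, hcop, hapx⟩ := hth (max N0 (max 3 ⌈8 / et⌉₊))
  have hQ3 : 3 ≤ Q := le_trans (le_trans (le_max_left _ _) (le_max_right _ _)) hNQ
  have hQ8 : 8 / et ≤ Q := by
    have h1 : ⌈8 / et⌉₊ ≤ Q := le_trans (le_trans (le_max_right _ _) (le_max_right _ _)) hNQ
    exact (Nat.le_ceil _).trans (by exact_mod_cast h1)
  have hQN : N0 ≤ Q := le_trans (le_max_left _ _) hNQ
  have hQr : (0 : ℝ) < Q := by
    have : 0 < Q := by omega
    exact_mod_cast this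
  set n : ℕ := 3 ^ (Q ^ 2) with hn
  refine ⟨n, ?_, ?_⟩
  · have h1 : Q ^ 2 < 3 ^ (Q ^ 2) := Nat.lt_pow_self (by norm_num)
    have h2 : Q ≤ Q ^ 2 := by nlinarith
    show N0 ≤ n
    omega
  have hnpos : (0 : ℝ) < (n : ℝ) := by
    rw [hn]; positivity
  set tt : ℝ := Q * (n * |th - P / Q|) with htt
  have htt0 : 0 ≤ tt := by positivity
  have htt1 : tt ≤ 1 / 8 := by
    have h1 : (n : ℝ) * |th - P / Q| ≤ 1 / (16 * Q) := by
      have : (n : ℝ) = (3 : ℝ) ^ (Q ^ 2) := by rw [hn]; push_cast; rfl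
      rw [this]
      exact hapx
    calc tt ≤ Q * (1 / (16 * Q)) := by
          rw [htt]
          exact mul_le_mul_of_nonneg_left h1 hQr.le
      _ = 1 / 16 := by field_simp
      _ ≤ 1 / 8 := by norm_num
  set c : ℝ := et * (Real.sqrt n * Real.log n) with hc
  set a : ℝ := 3 * Real.sqrt n with ha
  have ha0 : 0 < a := by
    rw [ha]
    have := Real.sqrt_pos.2 hnpos
    positivity
  have hkey : (Q : ℝ) * (2 * a + Q + 1) ≤ c := numer het hQ8 hQ3
  have hSm : MeasurableSet {q : (ℤ → ℕ → ℝ) × (ℕ → ℝ) | (X q.1 q.2 n : ℝ) ≤ c} := by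
    have h1 : Measurable (fun q : (ℤ → ℕ → ℝ) × (ℕ → ℝ) => (X q.1 q.2 n : ℝ)) :=
      (measurable_from_top (f := fun z : ℤ => (z : ℝ))).comp (hMe n).1
    exact measurableSet_le h1 measurable_const
  set S : Set ((ℤ → ℕ → ℝ) × (ℕ → ℝ)) := {q | (X q.1 q.2 n : ℝ) ≤ c} with hS
  set g : (ℤ → ℕ → ℝ) → ENNReal := fun e => marks (Prod.mk e ⁻¹' S) with hg
  have hgm : Measurable g := measurable_measure_prodMk_left hSm
  have henv : Measurable (env th) := (hMe n).2 th
  have hgood : ∀ x : ℝ, Int.fract (Q * x) ∈ Set.Ico (1 / 2 + tt) (1 - tt) →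
      ENNReal.ofReal (8 / 9) ≤ g (env th x) := by
    intro x hx
    have hCB : CB (rot th x) Q n := hC th x P Q n hodd hcop hx
    have hsub : (Prod.mk (env th x) ⁻¹' S)ᶜ ⊆ {U | ∃ k, k ≤ n ∧ a ≤ |Bn (env th x) U k|} := by
      intro U hU
      by_contra hcon
      apply hU
      simp only [Set.mem_ofPred_eq, not_exists, not_and, not_le] at hcon
      have h1 := hD (rot th x) U n Q a (by omega) hCB (fun k hk => (hcon k hk).le)
      show (X (env th x) U n : ℝ) ≤ c
      exact h1.trans hkey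
    have h01 : ∀ z i, 0 ≤ env th x z i ∧ env th x z i ≤ 1 := by
      intro z i
      unfold env envA
      split_ifs <;> norm_num
    have h2 := hM (env th x) h01 n a ha0
    have h3 : (n : ℝ) / a ^ 2 = 1 / 9 := by
      rw [ha, mul_pow, Real.sq_sqrt hnpos.le]
      field_simp
      norm_num
    rw [h3] at h2
    have hms : MeasurableSet (Prod.mk (env th x) ⁻¹' S) := measurable_prodMk_left hSm
    have h4 : marks (Prod.mk (env th x) ⁻¹' S)ᶜ ≤ ENNReal.ofReal (1 / 9) :=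
      (measure_mono hsub).trans h2
    rw [prob_compl_eq_one_sub hms] at h4
    have h5 : (1 : ENNReal) ≤ ENNReal.ofReal (1 / 9) + marks (Prod.mk (env th x) ⁻¹' S) := by
      rw [tsub_le_iff_right] at h4
      exact h4
    have h6 : ENNReal.ofReal (8 / 9) + ENNReal.ofReal (1 / 9) = 1 := by
      rw [← ENNReal.ofReal_add (by norm_num) (by norm_num)]
      norm_num
    rw [← h6, add_comm (ENNReal.ofReal (1 / 9))] at h5
    exact (ENNReal.add_le_add_iff_right ENNReal.ofReal_ne_top).1 h5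
  have hprod : ((lawE th).prod marks) S = ∫⁻ x in Set.Ioc (0 : ℝ) 1, g (env th x) := by
    rw [Measure.prod_apply hSm]
    show ∫⁻ e, g e ∂(lawE th) = _
    unfold lawE
    rw [lintegral_map hgm henv]
  have hlow : ENNReal.ofReal (8 / 9) * ENNReal.ofReal (1 / 4)
      ≤ ∫⁻ x in Set.Ioc (0 : ℝ) 1, g (env th x) := by
    refine le_trans ?_ (mul_meas_ge_le_lintegral (hgm.comp henv) (ENNReal.ofReal (8 / 9)))
    refine mul_le_mul_right ?_ _
    exact (hG Q tt (by omega) htt0 htt1).trans (measure_mono fun x hx => hgood x hx)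
  have hfin : ((lawE th).prod marks) S ≠ ⊤ := by
    rw [hprod]
    have h1 : ∫⁻ x in Set.Ioc (0 : ℝ) 1, g (env th x) ≤ ∫⁻ x in Set.Ioc (0 : ℝ) 1, 1 :=
      lintegral_mono fun x => prob_le_one
    refine ne_top_of_le_ne_top ?_ h1
    simp
  have h9 : ENNReal.ofReal (1 / 5) ≤ ((lawE th).prod marks) S := by
    rw [hprod]
    refine le_trans ?_ hlow
    rw [← ENNReal.ofReal_mul (by norm_num)]
    exact ENNReal.ofReal_le_ofReal (by norm_num)
  have h10 := ENNReal.toReal_mono hfin h9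
  rwa [ENNReal.toReal_ofReal (by norm_num)] at h10

end Pool.Agent.N940.EW.Fin
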