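import Pool.Agent.N940.EW.Defs

/-!
Project EW: a Liouville number with odd denominators (S_LIO), and the measure of the good
phases (S_MGD).
-/

set_option autoImplicit false

open MeasureTheory ProbabilityTheory Filter Topology

namespace Pool.Agent.N940.EW.Lio

/-- the points which are close to a fraction with a large odd denominator -/
def U (N : ℕ) : Set ℝ :=
  ⋃ (P : ℤ) (Q : ℕ) (_ : N ≤ Q ∧ Odd Q ∧ IsCoprime P (Q : ℤ)),
    {th : ℝ | (3 : ℝ) ^ (Q ^ 2) * |th - P / Q| < 1 / (16 * Q)}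

theorem isOpen_U (N : ℕ) : IsOpen (U N) := by
  refine isOpen_iUnion fun P => isOpen_iUnion fun Q => isOpen_iUnion fun _ => ?_
  refine isOpen_lt ?_ continuous_const
  fun_prop

theorem dense_U (N : ℕ) : Dense (U N) := by
  rw [Metric.dense_iff]
  intro x ε hε
  -- a large power of three
  obtain ⟨k, hk⟩ := pow_unbounded_of_one_lt (max (N : ℝ) (1 / ε)) (by norm_num : (1 : ℝ) < 3)
  have hk1 : (N : ℝ) < 3 ^ k := lt_of_le_of_lt (le_max_left _ _) hk
  have hk2 : 1 / ε < (3 : ℝ) ^ k := lt_of_le_of_lt (le_max_right _ _) hk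
  have h3 : (0 : ℝ) < 3 ^ k := by positivity
  -- a numerator not divisible by three
  have hP : ∃ P : ℤ, ¬ (3 : ℤ) ∣ P ∧ |x * 3 ^ k - P| ≤ 1 := by
    have h1 := Int.floor_le (x * 3 ^ k)
    have h2 := Int.lt_floor_add_one (x * 3 ^ k)
    by_cases h : (3 : ℤ) ∣ ⌊x * 3 ^ k⌋
    · refine ⟨⌊x * 3 ^ k⌋ + 1, by omega, ?_⟩
      push_cast
      rw [abs_le]
      constructor <;> linarith
    · refine ⟨⌊x * 3 ^ k⌋, h, ?_⟩
      rw [abs_le]
      constructor <;> linarith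
  obtain ⟨P, hP3, hPx⟩ := hP
  refine ⟨(P : ℝ) / ((3 ^ k : ℕ) : ℝ), ?_, ?_⟩
  · rw [Metric.mem_ball, Real.dist_eq]
    push_cast
    have h4 : (P : ℝ) / 3 ^ k - x = -((x * 3 ^ k - P) / 3 ^ k) := by
      field_simp
      ring
    rw [h4, abs_neg, abs_div, abs_of_pos h3, div_lt_iff₀ h3]
    refine lt_of_le_of_lt hPx ?_
    rw [div_lt_iff₀ hε] at hk2
    linarith
  · refine Set.mem_iUnion.2 ⟨P, Set.mem_iUnion.2 ⟨3 ^ k, Set.mem_iUnion.2 ⟨⟨?_, ?_, ?_⟩, ?_⟩⟩⟩
    · have : (N : ℝ) < ((3 ^ k : ℕ) : ℝ) := by push_cast; exact hk1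
      exact_mod_cast this.le
    · exact Odd.pow (by decide)
    · push_cast
      refine IsCoprime.pow_right ?_
      rw [isCoprime_comm]
      exact (Int.prime_three.coprime_iff_not_dvd).2 hP3
    · have h5 : (0 : ℝ) < 1 / (16 * ((3 ^ k : ℕ) : ℝ)) := by positivity
      show (3 : ℝ) ^ ((3 ^ k) ^ 2) * |(P : ℝ) / ((3 ^ k : ℕ) : ℝ) - (P : ℝ) / ((3 ^ k : ℕ) : ℝ)|
        < 1 / (16 * ((3 ^ k : ℕ) : ℝ))
      rw [sub_self, abs_zero, mul_zero]
      exact h5

theorem main : S_LIO := by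
  have h1 : ∀ᶠ x in residual ℝ, Irrational x := eventually_residual_irrational
  have h2 : ∀ᶠ x in residual ℝ, ∀ N : ℕ, x ∈ U N := by
    rw [eventually_countable_forall]
    intro N
    exact residual_of_dense_open (isOpen_U N) (dense_U N)
  have h3 : {x : ℝ | Irrational x ∧ ∀ N : ℕ, x ∈ U N} ∈ residual ℝ := h1.and h2
  obtain ⟨th, hth1, hth2⟩ := (dense_of_mem_residual h3).nonempty
  refine ⟨th, hth1, fun N => ?_⟩
  obtain ⟨P, h4⟩ := Set.mem_iUnion.1 (hth2 N)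
  obtain ⟨Q, h5⟩ := Set.mem_iUnion.1 h4
  obtain ⟨⟨h6, h7, h8⟩, h9⟩ := Set.mem_iUnion.1 h5
  exact ⟨P, Q, h6, h7, h8, le_of_lt h9⟩

theorem mgd : S_MGD := by
  intro Q t hQ ht0 ht1
  have hQ0 : (0 : ℝ) < Q := by exact_mod_cast hQ
  set I : ℕ → Set ℝ := fun j => Set.Ico (((j : ℝ) + 1 / 2 + t) / Q) (((j : ℝ) + 1 - t) / Q)
    with hI
  have hmem : ∀ j x, x ∈ I j ↔ (j : ℝ) + 1 / 2 + t ≤ Q * x ∧ Q * x < (j : ℝ) + 1 - t := by
    intro j x
    rw [hI]
    simp only [Set.mem_Ico]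
    rw [div_le_iff₀ hQ0, lt_div_iff₀ hQ0, mul_comm x (Q : ℝ)]
  have hfl : ∀ j x, x ∈ I j → ⌊(Q : ℝ) * x⌋ = (j : ℤ) := by
    intro j x hx
    obtain ⟨h1, h2⟩ := (hmem j x).1 hx
    rw [Int.floor_eq_iff]
    push_cast
    constructor <;> linarith
  have hsub : (⋃ j ∈ Finset.range Q, I j) ⊆
      {x : ℝ | Int.fract (Q * x) ∈ Set.Ico (1 / 2 + t) (1 - t)} := by
    intro x hx
    obtain ⟨j, hx1⟩ := Set.mem_iUnion.1 hx
    obtain ⟨_, hx2⟩ := Set.mem_iUnion.1 hx1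
    obtain ⟨h1, h2⟩ := (hmem j x).1 hx2
    have h3 : Int.fract ((Q : ℝ) * x) = Q * x - j := by
      rw [Int.fract, hfl j x hx2]
      push_cast
      ring
    show Int.fract ((Q : ℝ) * x) ∈ Set.Ico (1 / 2 + t) (1 - t)
    rw [h3, Set.mem_Ico]
    constructor <;> linarith
  have hdis : (↑(Finset.range Q) : Set ℕ).PairwiseDisjoint I := by
    intro i _ j _ hij
    refine Set.disjoint_left.2 fun x hx1 hx2 => hij ?_
    have := (hfl i x hx1).symm.trans (hfl j x hx2)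
    exact_mod_cast this
  have hmeas : ∀ j ∈ Finset.range Q, MeasurableSet (I j) := fun j _ => measurableSet_Ico
  have hval : ∀ j ∈ Finset.range Q, ((volume : Measure ℝ).restrict (Set.Ioc 0 1)) (I j) =
      ENNReal.ofReal ((1 / 2 - 2 * t) / Q) := by
    intro j hj
    have hjQ : (j : ℝ) + 1 ≤ Q := by exact_mod_cast Finset.mem_range.1 hj
    rw [Measure.restrict_apply (hmeas j hj)]
    have h1 : I j ∩ Set.Ioc 0 1 = I j := by
      refine Set.inter_eq_left.2 fun x hx => ?_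
      obtain ⟨h1, h2⟩ := (hmem j x).1 hx
      have hj0 : (0 : ℝ) ≤ j := Nat.cast_nonneg j
      constructor
      · by_contra h
        have := mul_nonpos_of_nonneg_of_nonpos hQ0.le (not_lt.1 h)
        linarith
      · by_contra h
        have h3 : (Q : ℝ) * 1 < Q * x := mul_lt_mul_of_pos_left (not_le.1 h) hQ0
        linarith
    rw [h1, hI]
    simp only []
    rw [Real.volume_Ico]
    congr 1
    field_simp
    ring
  calc ENNReal.ofReal (1 / 4) ≤ ENNReal.ofReal (1 / 2 - 2 * t) :=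
        ENNReal.ofReal_le_ofReal (by linarith)
    _ = ∑ j ∈ Finset.range Q, ((volume : Measure ℝ).restrict (Set.Ioc 0 1)) (I j) := by
        rw [Finset.sum_congr rfl hval, Finset.sum_const, Finset.card_range, nsmul_eq_mul,
          ← ENNReal.ofReal_natCast, ← ENNReal.ofReal_mul hQ0.le]
        congr 1
        field_simp
    _ = ((volume : Measure ℝ).restrict (Set.Ioc 0 1)) (⋃ j ∈ Finset.range Q, I j) :=
        (measure_biUnion_finset hdis hmeas).symm
    _ ≤ _ := measure_mono hsub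

end Pool.Agent.N940.EW.Lio
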