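import Pool.Agent.N940.EW.Defs

/-!
Project EW, piece MART: maximal inequality for the compensated walk (helper380).
-/

set_option autoImplicit false

open MeasureTheory ProbabilityTheory Filter Topology

namespace Pool.Agent.N940.EW.Mart

open Pool.Agent.N940.EW

/-- uniform law -/
noncomputable def nu : Measure ℝ := (volume : Measure ℝ).restrict (Set.Icc 0 1)

instance : IsProbabilityMeasure nu := ⟨by simp [nu]⟩

theorem marks_eq : marks = Measure.infinitePi (fun _ : ℕ => nu) := rfl

instance : IsProbabilityMeasure marks := by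
  rw [marks_eq]
  infer_instance

/-- resampling one coordinate -/
theorem resample (k : ℕ) :
    (marks.prod nu).map (fun q : (ℕ → ℝ) × ℝ => Function.update q.1 k q.2) = marks := by
  have hm : Measurable (fun q : (ℕ → ℝ) × ℝ => Function.update q.1 k q.2) := by
    refine measurable_pi_iff.2 fun i => ?_
    by_cases h : i = k
    · subst h
      simpa using measurable_snd
    · simp only [Function.update_of_ne h]
      exact (measurable_pi_apply i).comp measurable_fst
  rw [marks_eq]
  refine Measure.eq_infinitePi _ fun s t ht => ?_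
  have hs : MeasurableSet (Set.pi (s : Set ℕ) t) :=
    MeasurableSet.pi s.countable_toSet fun i _ => ht i
  rw [Measure.map_apply hm hs]
  by_cases hk : k ∈ s
  · have h1 : (fun q : (ℕ → ℝ) × ℝ => Function.update q.1 k q.2) ⁻¹' (Set.pi (s : Set ℕ) t) =
        (Set.pi ((s.erase k : Finset ℕ) : Set ℕ) t) ×ˢ (t k) := by
      ext q
      simp only [Set.mem_preimage, Set.mem_pi, Set.mem_prod, Finset.mem_coe, Finset.mem_erase]
      constructor
      · intro h
        refine ⟨fun i hi => ?_, ?_⟩
        · have := h i hi.2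
          rwa [Function.update_of_ne hi.1] at this
        · have := h k hk
          rwa [Function.update_self] at this
      · rintro ⟨h2, h3⟩ i hi
        by_cases hik : i = k
        · subst hik
          rw [Function.update_self]
          exact h3
        · rw [Function.update_of_ne hik]
          exact h2 i ⟨hik, hi⟩
    rw [h1, Measure.prod_prod, ← marks_eq, marks_eq, Measure.infinitePi_pi,
      ← Finset.prod_erase_mul s (fun i => nu (t i)) hk]
    intro i _
    exact ht i
  · have h1 : (fun q : (ℕ → ℝ) × ℝ => Function.update q.1 k q.2) ⁻¹' (Set.pi (s : Set ℕ) t) =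
        (Set.pi (s : Set ℕ) t) ×ˢ Set.univ := by
      ext q
      simp only [Set.mem_preimage, Set.mem_pi, Set.mem_prod, Finset.mem_coe, Set.mem_univ,
        and_true]
      refine forall_congr' fun i => forall_congr' fun hi => ?_
      have : i ≠ k := fun h => hk (h ▸ hi)
      rw [Function.update_of_ne this]
    rw [h1, Measure.prod_prod, measure_univ, mul_one, ← marks_eq, marks_eq,
      Measure.infinitePi_pi _ fun i _ => ht i]

theorem measurable_update (k : ℕ) :
    Measurable (fun q : (ℕ → ℝ) × ℝ => Function.update q.1 k q.2) := by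
  refine measurable_pi_iff.2 fun i => ?_
  by_cases h : i = k
  · subst h
    simpa using measurable_snd
  · simp only [Function.update_of_ne h]
    exact (measurable_pi_apply i).comp measurable_fst

/-- integration with one coordinate resampled -/
theorem lint_resample (k : ℕ) (f : (ℕ → ℝ) → ENNReal) (hf : Measurable f) :
    ∫⁻ U, f U ∂marks = ∫⁻ U, ∫⁻ u, f (Function.update U k u) ∂nu ∂marks := by
  conv_lhs => rw [← resample k]
  rw [lintegral_map hf (measurable_update k)]
  exact lintegral_prod (fun q : (ℕ → ℝ) × ℝ => f (Function.update q.1 k q.2))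
    (hf.comp (measurable_update k)).aemeasurable

/-- the integral of a function with two values -/
theorem lint_two (p m f : ℝ) (hp0 : 0 ≤ p) (hp1 : p ≤ 1) (hf : f = 0 ∨ f = 1) :
    ∫⁻ u, ENNReal.ofReal ((m + f * (2 * ((if u < p then 1 else 0) - p))) ^ 2) ∂nu ≤
      ENNReal.ofReal (m ^ 2) + 1 := by
  have hA : MeasurableSet (Set.Iio p) := measurableSet_Iio
  rw [← lintegral_add_compl _ hA]
  have e1 : ∫⁻ u in Set.Iio p, ENNReal.ofReal ((m + f * (2 * ((if u < p then 1 else 0) - p))) ^ 2)
      ∂nu = ENNReal.ofReal ((m + f * (2 * (1 - p))) ^ 2) * nu (Set.Iio p) := by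
    rw [← setLIntegral_const]
    refine setLIntegral_congr_fun hA fun u hu => ?_
    rw [if_pos (Set.mem_Iio.1 hu)]
  have e2 : ∫⁻ u in (Set.Iio p)ᶜ, ENNReal.ofReal ((m + f * (2 * ((if u < p then 1 else 0) - p))) ^ 2)
      ∂nu = ENNReal.ofReal ((m + f * (2 * (0 - p))) ^ 2) * nu (Set.Iio p)ᶜ := by
    rw [← setLIntegral_const]
    refine setLIntegral_congr_fun hA.compl fun u hu => ?_
    rw [if_neg (fun h => hu (Set.mem_Iio.2 h))]
  have e3 : nu (Set.Iio p) = ENNReal.ofReal p := by
    unfold nu
    rw [Measure.restrict_apply hA]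
    have : Set.Iio p ∩ Set.Icc 0 1 = Set.Ico 0 p := by
      ext x
      simp only [Set.mem_inter_iff, Set.mem_Iio, Set.mem_Icc, Set.mem_Ico]
      constructor
      · rintro ⟨h1, h2, h3⟩
        exact ⟨h2, h1⟩
      · rintro ⟨h1, h2⟩
        exact ⟨h2, h1, by linarith⟩
    rw [this, Real.volume_Ico, sub_zero]
  have e4 : nu (Set.Iio p)ᶜ = ENNReal.ofReal (1 - p) := by
    unfold nu
    rw [Measure.restrict_apply hA.compl]
    have : (Set.Iio p)ᶜ ∩ Set.Icc 0 1 = Set.Icc p 1 := by
      ext x
      simp only [Set.mem_inter_iff, Set.mem_compl_iff, Set.mem_Iio, Set.mem_Icc, not_lt]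
      constructor
      · rintro ⟨h1, h2, h3⟩
        exact ⟨h1, h3⟩
      · rintro ⟨h1, h2⟩
        exact ⟨h1, by linarith, h2⟩
    rw [this, Real.volume_Icc]
  have h1p : 0 ≤ 1 - p := by linarith
  rw [e1, e2, e3, e4, ← ENNReal.ofReal_mul (sq_nonneg _), ← ENNReal.ofReal_mul (sq_nonneg _),
    ← ENNReal.ofReal_add (by positivity) (by positivity)]
  have h4 : (1 : ENNReal) = ENNReal.ofReal 1 := by simp
  rw [h4, ← ENNReal.ofReal_add (sq_nonneg _) zero_le_one]
  apply ENNReal.ofReal_le_ofReal
  rcases hf with rfl | rfl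
  · nlinarith
  · nlinarith [sq_nonneg (2 * p - 1), mul_nonneg hp0 h1p]

/-! ### dependence on the marks -/

theorem X_succ (e : ℤ → ℕ → ℝ) (U : ℕ → ℝ) (n : ℕ) :
    X e U (n + 1) = if U n < pr e U n then X e U n + 1 else X e U n - 1 := by
  unfold pr vis
  rw [X]

theorem X_update (e : ℤ → ℕ → ℝ) (U : ℕ → ℝ) (n : ℕ) (u : ℝ) :
    ∀ m, m ≤ n → X e (Function.update U n u) m = X e U m := by
  intro m
  induction m using Nat.strong_induction_on with
  | _ m ih =>
    intro hm
    cases m with
    | zero => simp [X]
    | succ m =>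
      have h1 : ∀ j, j ≤ m → X e (Function.update U n u) j = X e U j :=
        fun j hj => ih j (by omega) (by omega)
      have h2 : vis e (Function.update U n u) m = vis e U m := by
        unfold vis
        congr 1
        apply Finset.filter_congr
        intro j _
        rw [h1 j (by omega), h1 m le_rfl]
      rw [X_succ, X_succ]
      unfold pr
      rw [h2, h1 m le_rfl, Function.update_of_ne (by omega)]

theorem pr_update (e : ℤ → ℕ → ℝ) (U : ℕ → ℝ) (n : ℕ) (u : ℝ) (m : ℕ) (hm : m ≤ n) :
    pr e (Function.update U n u) m = pr e U m := by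
  have h2 : vis e (Function.update U n u) m = vis e U m := by
    unfold vis
    congr 1
    apply Finset.filter_congr
    intro j _
    rw [X_update e U n u j (by omega), X_update e U n u m hm]
  unfold pr
  rw [h2, X_update e U n u m hm]

theorem Bn_update (e : ℤ → ℕ → ℝ) (U : ℕ → ℝ) (n : ℕ) (u : ℝ) (m : ℕ) (hm : m ≤ n) :
    Bn e (Function.update U n u) m = Bn e U m := by
  unfold Bn
  rw [X_update e U n u m hm]
  congr 1
  refine Finset.sum_congr rfl fun k hk => ?_
  rw [pr_update e U n u k (by have := Finset.mem_range.1 hk; omega)]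

theorem Bn_succ (e : ℤ → ℕ → ℝ) (U : ℕ → ℝ) (n : ℕ) :
    Bn e U (n + 1) = Bn e U n + 2 * ((if U n < pr e U n then 1 else 0) - pr e U n) := by
  unfold Bn
  rw [X_succ, Finset.sum_range_succ]
  split_ifs
  · push_cast
    ring
  · push_cast
    ring

/-! ### measurability -/

theorem meas_X (e : ℤ → ℕ → ℝ) (n : ℕ) : Measurable (fun U : ℕ → ℝ => X e U n) := by
  induction n using Nat.strong_induction_on with
  | _ n ih =>
    cases n with
    | zero =>
      have : (fun U : ℕ → ℝ => X e U 0) = fun _ => 0 := by
        funext U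
        simp [X]
      rw [this]
      exact measurable_const
    | succ n =>
      classical
      let g : ℝ × (Fin (n + 1) → ℤ) → ℤ := fun q =>
        if q.1 < e (q.2 (Fin.last n))
          ((Finset.univ.filter (fun j : Fin (n + 1) => q.2 j = q.2 (Fin.last n))).card)
        then q.2 (Fin.last n) + 1 else q.2 (Fin.last n) - 1
      have hg : Measurable g := by
        apply measurable_from_prod_countable_left
        intro p
        change Measurable fun x : ℝ => if x < e (p (Fin.last n))
          ((Finset.univ.filter (fun j : Fin (n + 1) => p j = p (Fin.last n))).card)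
          then p (Fin.last n) + 1 else p (Fin.last n) - 1
        exact Measurable.ite measurableSet_Iio measurable_const measurable_const
      have hp : Measurable (fun U : ℕ → ℝ => fun j : Fin (n + 1) => X e U j) :=
        measurable_pi_iff.2 fun j => ih j (by omega)
      have h1 : (fun U : ℕ → ℝ => X e U (n + 1)) =
          fun U => g (U n, fun j : Fin (n + 1) => X e U j) := by
        funext U
        rw [X]
        simp only [g, Fin.val_last]
      rw [h1]
      exact hg.comp ((measurable_pi_apply n).prodMk hp)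

theorem meas_pr (e : ℤ → ℕ → ℝ) (n : ℕ) : Measurable (fun U : ℕ → ℝ => pr e U n) := by
  classical
  let h : (Fin (n + 1) → ℤ) → ℝ := fun p => e (p (Fin.last n))
    ((Finset.univ.filter (fun j : Fin (n + 1) => p j = p (Fin.last n))).card)
  have hh : Measurable h := measurable_of_countable h
  have hp : Measurable (fun U : ℕ → ℝ => fun j : Fin (n + 1) => X e U j) :=
    measurable_pi_iff.2 fun j => meas_X e j
  have h1 : (fun U : ℕ → ℝ => pr e U n) = fun U => h (fun j : Fin (n + 1) => X e U j) := by
    funext U
    unfold pr vis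
    simp only [h, Fin.val_last]
  rw [h1]
  exact hh.comp hp

theorem meas_Bn (e : ℤ → ℕ → ℝ) (n : ℕ) : Measurable (fun U : ℕ → ℝ => Bn e U n) := by
  unfold Bn
  refine Measurable.sub ?_ ?_
  · exact (measurable_of_countable (fun z : ℤ => (z : ℝ))).comp (meas_X e n)
  · exact Finset.measurable_sum _ fun k _ => ((meas_pr e k).const_mul 2).sub_const 1

/-! ### the stopped process -/

open Classical in
/-- indicator of the event that the process has not yet left `(-a, a)` -/
noncomputable def ph (e : ℤ → ℕ → ℝ) (a : ℝ) (U : ℕ → ℝ) (k : ℕ) : ℝ :=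
  if ∀ j, j ≤ k → |Bn e U j| < a then 1 else 0

/-- the stopped process -/
noncomputable def M (e : ℤ → ℕ → ℝ) (a : ℝ) (U : ℕ → ℝ) : ℕ → ℝ
  | 0 => 0
  | (k + 1) => M e a U k + ph e a U k * (2 * ((if U k < pr e U k then 1 else 0) - pr e U k))

theorem ph_cases (e : ℤ → ℕ → ℝ) (a : ℝ) (U : ℕ → ℝ) (k : ℕ) :
    ph e a U k = 0 ∨ ph e a U k = 1 := by
  unfold ph
  split_ifs
  · exact Or.inr rfl
  · exact Or.inl rfl

theorem M_spec (e : ℤ → ℕ → ℝ) (a : ℝ) (ha : 0 < a) (U : ℕ → ℝ) (k : ℕ) :
    ((∀ j, j ≤ k → |Bn e U j| < a) → M e a U k = Bn e U k) ∧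
      ((∃ j, j ≤ k ∧ a ≤ |Bn e U j|) → a ≤ |M e a U k|) := by
  have hB0 : Bn e U 0 = 0 := by
    unfold Bn
    simp [X]
  induction k with
  | zero =>
    refine ⟨fun _ => ?_, ?_⟩
    · rw [hB0]
      rfl
    · rintro ⟨j, hj, h⟩
      have : j = 0 := by omega
      rw [this, hB0, abs_zero] at h
      linarith
  | succ k ih =>
    by_cases hall : ∀ j, j ≤ k → |Bn e U j| < a
    · have h1 : M e a U (k + 1) = Bn e U (k + 1) := by
        rw [Bn_succ, ← ih.1 hall]
        change M e a U k + ph e a U k * (2 * ((if U k < pr e U k then 1 else 0) - pr e U k)) = _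
        have : ph e a U k = 1 := by
          unfold ph
          rw [if_pos hall]
        rw [this, one_mul]
      refine ⟨fun _ => h1, ?_⟩
      rintro ⟨j, hj, h⟩
      rcases Nat.lt_or_ge j (k + 1) with hjk | hjk
      · exact absurd h (not_le.2 (hall j (by omega)))
      · have : j = k + 1 := by omega
        rw [this] at h
        rw [h1]
        exact h
    · have h1 : M e a U (k + 1) = M e a U k := by
        change M e a U k + ph e a U k * (2 * ((if U k < pr e U k then 1 else 0) - pr e U k)) = _
        have : ph e a U k = 0 := by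
          unfold ph
          rw [if_neg hall]
        rw [this, zero_mul, add_zero]
      push Not at hall
      rw [h1]
      refine ⟨fun h => ?_, fun _ => ih.2 hall⟩
      obtain ⟨j, hj, hj2⟩ := hall
      exact absurd hj2 (not_le.2 (h j (by omega)))

theorem ph_update (e : ℤ → ℕ → ℝ) (a : ℝ) (U : ℕ → ℝ) (n : ℕ) (u : ℝ) (m : ℕ) (hm : m ≤ n) :
    ph e a (Function.update U n u) m = ph e a U m := by
  unfold ph
  have : (∀ j, j ≤ m → |Bn e (Function.update U n u) j| < a) ↔ ∀ j, j ≤ m → |Bn e U j| < a := by
    refine forall_congr' fun j => forall_congr' fun hj => ?_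
    rw [Bn_update e U n u j (by omega)]
  simp only [this]

theorem M_update (e : ℤ → ℕ → ℝ) (a : ℝ) (U : ℕ → ℝ) (n : ℕ) (u : ℝ) (m : ℕ) (hm : m ≤ n) :
    M e a (Function.update U n u) m = M e a U m := by
  induction m with
  | zero => rfl
  | succ m ih =>
    change M e a (Function.update U n u) m + ph e a (Function.update U n u) m *
      (2 * ((if Function.update U n u m < pr e (Function.update U n u) m then 1 else 0) -
        pr e (Function.update U n u) m)) =
      M e a U m + ph e a U m * (2 * ((if U m < pr e U m then 1 else 0) - pr e U m))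
    rw [ih (by omega), ph_update e a U n u m (by omega), pr_update e U n u m (by omega),
      Function.update_of_ne (by omega)]

theorem meas_ph (e : ℤ → ℕ → ℝ) (a : ℝ) (k : ℕ) : Measurable (fun U : ℕ → ℝ => ph e a U k) := by
  unfold ph
  refine Measurable.ite ?_ measurable_const measurable_const
  have : {U : ℕ → ℝ | ∀ j, j ≤ k → |Bn e U j| < a} =
      ⋂ j, ⋂ (_ : j ≤ k), {U : ℕ → ℝ | |Bn e U j| < a} := by
    ext U
    simp
  rw [this]
  refine MeasurableSet.iInter fun j => MeasurableSet.iInter fun _ => ?_
  exact measurableSet_lt (meas_Bn e j).abs measurable_const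

theorem meas_M (e : ℤ → ℕ → ℝ) (a : ℝ) (k : ℕ) : Measurable (fun U : ℕ → ℝ => M e a U k) := by
  induction k with
  | zero => exact measurable_const
  | succ k ih =>
    change Measurable fun U : ℕ → ℝ => M e a U k +
      ph e a U k * (2 * ((if U k < pr e U k then 1 else 0) - pr e U k))
    refine ih.add ((meas_ph e a k).mul (Measurable.const_mul ?_ 2))
    refine Measurable.sub ?_ (meas_pr e k)
    exact Measurable.ite (measurableSet_lt (measurable_pi_apply k) (meas_pr e k))
      measurable_const measurable_const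

theorem second_moment (e : ℤ → ℕ → ℝ) (he : ∀ z i, 0 ≤ e z i ∧ e z i ≤ 1) (a : ℝ) (k : ℕ) :
    ∫⁻ U, ENNReal.ofReal (M e a U k ^ 2) ∂marks ≤ k := by
  induction k with
  | zero =>
    have : (fun U : ℕ → ℝ => ENNReal.ofReal (M e a U 0 ^ 2)) = fun _ => 0 := by
      funext U
      have : M e a U 0 = 0 := rfl
      rw [this]
      simp
    rw [this]
    simp
  | succ k ih =>
    rw [lint_resample k (fun U => ENNReal.ofReal (M e a U (k + 1) ^ 2))
      (ENNReal.measurable_ofReal.comp ((meas_M e a (k + 1)).pow_const 2))]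
    calc ∫⁻ U, ∫⁻ u, ENNReal.ofReal (M e a (Function.update U k u) (k + 1) ^ 2) ∂nu ∂marks
        ≤ ∫⁻ U, (ENNReal.ofReal (M e a U k ^ 2) + 1) ∂marks := by
          refine lintegral_mono fun U => ?_
          have h1 : ∀ u, M e a (Function.update U k u) (k + 1) = M e a U k +
              ph e a U k * (2 * ((if u < pr e U k then 1 else 0) - pr e U k)) := by
            intro u
            change M e a (Function.update U k u) k + ph e a (Function.update U k u) k *
              (2 * ((if Function.update U k u k < pr e (Function.update U k u) k then 1 else 0) -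
                pr e (Function.update U k u) k)) = _
            rw [M_update e a U k u k le_rfl, ph_update e a U k u k le_rfl,
              pr_update e U k u k le_rfl, Function.update_self]
          simp only [h1]
          exact lint_two _ _ _ (he _ _).1 (he _ _).2 (ph_cases e a U k)
      _ = ∫⁻ U, ENNReal.ofReal (M e a U k ^ 2) ∂marks + 1 := by
          rw [lintegral_add_right _ measurable_const]
          simp
      _ ≤ k + 1 := by gcongr
      _ = ((k + 1 : ℕ) : ENNReal) := by push_cast; rfl

theorem main : S_MART := by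
  intro e he n a ha
  have h1 := mul_meas_ge_le_lintegral (μ := marks)
    (ENNReal.measurable_ofReal.comp ((meas_M e a n).pow_const 2)) (ENNReal.ofReal (a ^ 2))
  have h2 : {U : ℕ → ℝ | ∃ k, k ≤ n ∧ a ≤ |Bn e U k|} ⊆
      {U : ℕ → ℝ | ENNReal.ofReal (a ^ 2) ≤ (ENNReal.ofReal ∘ fun U => M e a U n ^ 2) U} := by
    intro U hU
    have h3 := (M_spec e a ha U n).2 hU
    change ENNReal.ofReal (a ^ 2) ≤ ENNReal.ofReal (M e a U n ^ 2)
    apply ENNReal.ofReal_le_ofReal
    rw [← sq_abs (M e a U n)]
    exact pow_le_pow_left₀ ha.le h3 2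
  have h3 : ENNReal.ofReal (a ^ 2) * marks {U : ℕ → ℝ | ∃ k, k ≤ n ∧ a ≤ |Bn e U k|} ≤ n := by
    refine le_trans ?_ (h1.trans (second_moment e he a n))
    gcongr
  have ha2 : 0 < a ^ 2 := by positivity
  rw [ENNReal.ofReal_div_of_pos ha2, ENNReal.ofReal_natCast, ENNReal.le_div_iff_mul_le
    (Or.inl (by simpa using ha2.ne')) (Or.inl ENNReal.ofReal_ne_top), mul_comm]
  exact h3

end Pool.Agent.N940.EW.Mart
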