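import Pool.Agent.N940.EW.Defs

/-!
Project EW (helper940): measurability and the parameters of the environment. By helper73.
-/

set_option autoImplicit false

open MeasureTheory ProbabilityTheory Filter Topology

namespace Pool.Agent.N940.EW.Meas

open Pool.Agent.N940.EW

theorem X_succ (e : ℤ → ℕ → ℝ) (U : ℕ → ℝ) (n : ℕ) :
    X e U (n + 1) = if U n < e (X e U n) (vis e U n) then X e U n + 1 else X e U n - 1 := by
  rw [X]
  rfl

theorem vis_meas {n : ℕ}
    (h : ∀ j ≤ n, Measurable (fun q : (ℤ → ℕ → ℝ) × (ℕ → ℝ) => X q.1 q.2 j)) :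
    Measurable (fun q : (ℤ → ℕ → ℝ) × (ℕ → ℝ) => vis q.1 q.2 n) := by
  classical
  have e1 : (fun q : (ℤ → ℕ → ℝ) × (ℕ → ℝ) => vis q.1 q.2 n) =
      fun q => ∑ j : Fin (n + 1), if X q.1 q.2 j = X q.1 q.2 n then 1 else 0 := by
    funext q
    unfold vis
    rw [Finset.card_filter]
  rw [e1]
  refine Finset.measurable_sum _ fun j _ => ?_
  refine Measurable.ite ?_ measurable_const measurable_const
  exact measurableSet_eq_fun (h j (by omega)) (h n le_rfl)

theorem X_meas (n : ℕ) : Measurable (fun q : (ℤ → ℕ → ℝ) × (ℕ → ℝ) => X q.1 q.2 n) := by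
  induction n using Nat.strong_induction_on with
  | _ n ih =>
    rcases n with _ | n
    · have e1 : (fun q : (ℤ → ℕ → ℝ) × (ℕ → ℝ) => X q.1 q.2 0) = fun _ => 0 := by
        funext q
        rw [X]
      rw [e1]
      exact measurable_const
    · have hX : ∀ j ≤ n, Measurable (fun q : (ℤ → ℕ → ℝ) × (ℕ → ℝ) => X q.1 q.2 j) :=
        fun j hj => ih j (by omega)
      have hv := vis_meas hX
      have e1 : (fun q : (ℤ → ℕ → ℝ) × (ℕ → ℝ) => X q.1 q.2 (n + 1)) =
          fun q => if q.2 n < q.1 (X q.1 q.2 n) (vis q.1 q.2 n) then X q.1 q.2 n + 1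
            else X q.1 q.2 n - 1 := by
        funext q
        exact X_succ _ _ _
      rw [e1]
      have hf : Measurable (fun p : ((ℤ → ℕ → ℝ) × (ℕ → ℝ)) × (ℤ × ℕ) => p.1.1 p.2.1 p.2.2) := by
        refine measurable_from_prod_countable_left fun y => ?_
        exact (measurable_pi_apply y.2).comp ((measurable_pi_apply y.1).comp measurable_fst)
      have hg : Measurable (fun q : (ℤ → ℕ → ℝ) × (ℕ → ℝ) =>
          q.1 (X q.1 q.2 n) (vis q.1 q.2 n)) :=
        hf.comp (measurable_id.prodMk ((hX n le_rfl).prodMk hv))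
      refine Measurable.ite ?_ ((hX n le_rfl).add_const 1) ((hX n le_rfl).sub_const 1)
      exact measurableSet_lt ((measurable_pi_apply n).comp measurable_snd) hg

theorem env_meas (th : ℝ) : Measurable (env th) := by
  classical
  refine measurable_pi_iff.2 fun z => measurable_pi_iff.2 fun i => ?_
  have e1 : (fun x : ℝ => env th x z i) =
      fun x => if (Int.fract (x + z * th) < 1 / 2 ∧ i ≤ 4) then 3 / 4 else 1 / 2 := by
    funext x
    unfold env envA rot
    congr 1
  rw [e1]
  refine Measurable.ite ?_ measurable_const measurable_const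
  refine MeasurableSet.inter ?_ (MeasurableSet.const _)
  exact measurableSet_lt (measurable_fract.comp (measurable_id.add_const _)) measurable_const

theorem main : S_MEAS := fun n => ⟨X_meas n, env_meas⟩

theorem ae_law (th : ℝ) {p : (ℤ → ℕ → ℝ) → Prop} (hp : MeasurableSet {e | p e})
    (h : ∀ x, p (env th x)) : ∀ᵐ e ∂(lawE th), p e :=
  (ae_map_iff (env_meas th).aemeasurable hp).2 (Eventually.of_forall h)

theorem env_eq (th x : ℝ) (z : ℤ) (i : ℕ) : env th x z i =
    if (Int.fract (x + z * th) < 1 / 2 ∧ i ≤ 4) then 3 / 4 else 1 / 2 := by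
  unfold env envA rot
  congr 1

theorem ev_meas (z : ℤ) (i : ℕ) : Measurable (fun e : ℤ → ℕ → ℝ => e z i) :=
  (measurable_pi_apply i).comp (measurable_pi_apply z)

theorem law_fin (th : ℝ) : IsFiniteMeasure (lawE th) := by
  unfold lawE
  infer_instance

/-- the value at the origin -/
theorem sum_env (th x : ℝ) : ∑ i ∈ Finset.range 4, (2 * env th x 0 (i + 1) - 1) =
    if Int.fract x < 1 / 2 then 2 else 0 := by
  simp only [env_eq, Int.cast_zero, zero_mul, add_zero, Finset.sum_range_succ,
    Finset.sum_range_zero]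
  by_cases h : Int.fract x < 1 / 2
  · simp only [h, true_and]
    norm_num
  · simp only [h, false_and, if_false]
    norm_num

theorem par : S_PAR := by
  intro th
  have hfin := law_fin th
  have h1 : ∀ᵐ e ∂(lawE th), ∀ z i, 1 / 2 ≤ e z i ∧ e z i ≤ 3 / 4 := by
    refine ae_law th ?_ fun x z i => ?_
    · simp only [Set.ofPred_forall]
      exact MeasurableSet.iInter fun z => MeasurableSet.iInter fun i =>
        (measurableSet_le measurable_const (ev_meas z i)).inter
          (measurableSet_le (ev_meas z i) measurable_const)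
    · rw [env_eq]
      split_ifs <;> norm_num
  have h2 : ∀ᵐ e ∂(lawE th), ∀ z i, 4 < i → e z i = 1 / 2 := by
    refine ae_law th ?_ fun x z i hi => ?_
    · simp only [Set.ofPred_forall]
      exact MeasurableSet.iInter fun z => MeasurableSet.iInter fun i => MeasurableSet.iInter
        fun _ => measurableSet_eq_fun (ev_meas z i) measurable_const
    · rw [env_eq, if_neg]
      intro h
      omega
  have h3 : (fun e : ℤ → ℕ → ℝ => ∑' i : ℕ, (2 * e 0 (i + 1) - 1)) =ᵐ[lawE th]
      fun e => ∑ i ∈ Finset.range 4, (2 * e 0 (i + 1) - 1) := by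
    filter_upwards [h2] with e he
    refine tsum_eq_sum fun i hi => ?_
    rw [Finset.mem_range, not_lt] at hi
    rw [he 0 (i + 1) (by omega)]
    norm_num
  have h4 : Integrable (fun e : ℤ → ℕ → ℝ => ∑ i ∈ Finset.range 4, (2 * e 0 (i + 1) - 1))
      (lawE th) := by
    refine integrable_finsetSum _ fun i _ => ?_
    refine Integrable.of_bound (((ev_meas 0 (i + 1)).const_mul 2).sub_const 1).aestronglyMeasurable
      1 ?_
    filter_upwards [h1] with e he
    have := he 0 (i + 1)
    rw [Real.norm_eq_abs, abs_le]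
    constructor <;> linarith
  refine ⟨h1, h2, h4.congr h3.symm, ?_, fun ep hep => ?_⟩
  · rw [integral_congr_ae h3]
    unfold lawE
    rw [integral_map (env_meas th).aemeasurable]
    · simp only [sum_env]
      rw [integral_Ioc_eq_integral_Ioo]
      have h5 : ∫ x in Set.Ioo (0 : ℝ) 1, (if Int.fract x < 1 / 2 then (2 : ℝ) else 0) =
          ∫ x in Set.Ioo (0 : ℝ) 1, (Set.Iio (1 / 2 : ℝ)).indicator (fun _ => (2 : ℝ)) x := by
        refine setIntegral_congr_fun measurableSet_Ioo fun x hx => ?_
        have h6 : Int.fract x = x := Int.fract_eq_self.2 ⟨hx.1.le, hx.2⟩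
        rw [h6]
        by_cases h7 : x < 1 / 2
        · rw [if_pos h7, Set.indicator_of_mem (Set.mem_Iio.2 h7)]
        · rw [if_neg h7, Set.indicator_of_notMem (fun h8 => h7 (Set.mem_Iio.1 h8))]
      rw [h5, setIntegral_indicator measurableSet_Iio, Set.Ioo_inter_Iio, setIntegral_const]
      have h8 : min (1 : ℝ) (1 / 2) = 1 / 2 := by norm_num
      rw [h8]
      simp [Measure.real]
    · have : Measurable (fun e : ℤ → ℕ → ℝ => ∑ i ∈ Finset.range 4, (2 * e 0 (i + 1) - 1)) :=
        Finset.measurable_sum _ fun i _ => ((ev_meas 0 (i + 1)).const_mul 2).sub_const 1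
      exact this.aestronglyMeasurable
  · classical
    have h5 : ∀ᵐ e ∂(lawE th), (∀ i, 1 ≤ i → i ≤ 4 → e 0 i = e 0 1) ∧
        (e 0 1 = 3 / 4 ∨ e 0 1 = 1 / 2) := by
      refine ae_law th ?_ fun x => ⟨fun i hi hi' => ?_, ?_⟩
      · refine MeasurableSet.inter ?_ ?_
        · show MeasurableSet {e : ℤ → ℕ → ℝ | ∀ i, 1 ≤ i → i ≤ 4 → e 0 i = e 0 1}
          simp only [Set.ofPred_forall]
          exact MeasurableSet.iInter fun i => MeasurableSet.iInter fun _ => MeasurableSet.iInter
            fun _ => measurableSet_eq_fun (ev_meas 0 i) (ev_meas 0 1)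
        · exact (measurableSet_eq_fun (ev_meas 0 1) measurable_const).union
            (measurableSet_eq_fun (ev_meas 0 1) measurable_const)
      · rw [env_eq, env_eq]
        congr 1
        simp [hi']
      · rw [env_eq]
        split_ifs
        · exact Or.inl rfl
        · exact Or.inr rfl
    have h6 : (fun e : ℤ → ℕ → ℝ =>
        ((sSup {i : ℕ | 1 ≤ i ∧ ep ≤ |e 0 i - 1 / 2|} : ℕ) : ℝ)) =ᵐ[lawE th]
        fun e => if e 0 1 = 3 / 4 ∧ ep ≤ 1 / 4 then 4 else 0 := by
      filter_upwards [h2, h5] with e he2 he5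
      obtain ⟨he5, he6⟩ := he5
      by_cases hc : e 0 1 = 3 / 4 ∧ ep ≤ 1 / 4
      · rw [if_pos hc]
        have h7 : IsGreatest {i : ℕ | 1 ≤ i ∧ ep ≤ |e 0 i - 1 / 2|} 4 := by
          refine ⟨⟨by norm_num, ?_⟩, fun i hi => ?_⟩
          · rw [he5 4 (by norm_num) le_rfl, hc.1]
            norm_num
            linarith [hc.2]
          · by_contra h8
            push Not at h8
            have h9 := hi.2
            rw [he2 0 i h8, sub_self, abs_zero] at h9
            linarith
        rw [h7.csSup_eq]
        norm_num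
      · rw [if_neg hc]
        have h7 : {i : ℕ | 1 ≤ i ∧ ep ≤ |e 0 i - 1 / 2|} = ∅ := by
          rw [Set.eq_empty_iff_forall_notMem]
          rintro i ⟨hi1, hi2⟩
          by_cases hi4 : i ≤ 4
          · rw [he5 i hi1 hi4] at hi2
            rcases he6 with h8 | h8
            · apply hc
              refine ⟨h8, ?_⟩
              rw [h8] at hi2
              norm_num at hi2
              linarith
            · rw [h8, sub_self, abs_zero] at hi2
              linarith
          · rw [he2 0 i (by omega), sub_self, abs_zero] at hi2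
            linarith
        rw [h7]
        simp
    refine Integrable.congr ?_ h6.symm
    refine Integrable.of_bound (C := 4) ?_ ?_
    · refine (Measurable.ite ?_ measurable_const measurable_const).aestronglyMeasurable
      exact (measurableSet_eq_fun (ev_meas 0 1) measurable_const).inter (MeasurableSet.const _)
    · refine Eventually.of_forall fun e => ?_
      split_ifs <;> norm_num

end Pool.Agent.N940.EW.Meas
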