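import Pool.Agent.N940.EW.Fin

/-!
Project EW: no convergence in distribution.
-/

open MeasureTheory ProbabilityTheory Filter Topology

namespace Pool.Agent.N940.EW.Nc

open Pool.Agent.N940.EW

/-- a continuous function between the indicators of `(-∞, et]` and `(-∞, 2 et]` -/
noncomputable def cut (et : ℝ) : BoundedContinuousFunction ℝ ℝ :=
  BoundedContinuousFunction.ofNormedAddCommGroup (fun y : ℝ => max 0 (min 1 (2 - y / et)))
    (by fun_prop) 1 (by
      intro y
      rw [Real.norm_eq_abs, abs_of_nonneg (le_max_left _ _)]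
      exact max_le zero_le_one (min_le_left _ _))

theorem cut_nonneg (et y : ℝ) : 0 ≤ cut et y := le_max_left _ _

theorem cut_le_one (et y : ℝ) : cut et y ≤ 1 := max_le zero_le_one (min_le_left _ _)

theorem cut_one {et y : ℝ} (het : 0 < et) (hy : y ≤ et) : cut et y = 1 := by
  show max 0 (min 1 (2 - y / et)) = 1
  have h1 : y / et ≤ 1 := by rw [div_le_one het]; exact hy
  rw [min_eq_left (by linarith), max_eq_right zero_le_one]

theorem cut_zero {et y : ℝ} (het : 0 < et) (hy : 2 * et ≤ y) : cut et y = 0 := by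
  show max 0 (min 1 (2 - y / et)) = 0
  have h1 : 2 ≤ y / et := by rw [le_div_iff₀ het]; exact hy
  rw [min_eq_right (by linarith), max_eq_left (by linarith)]

theorem noconv {P : Measure (ℤ → ℕ → ℝ)} (hP : IsProbabilityMeasure P)
    (hms : ∀ n, Measurable (fun q : (ℤ → ℕ → ℝ) × (ℕ → ℝ) => X q.1 q.2 n))
    (h : ∀ et : ℝ, 0 < et → ∃ᶠ n : ℕ in atTop,
      (1 / 5 : ℝ) ≤ ((P.prod marks)
        {q | (X q.1 q.2 n : ℝ) ≤ et * (Real.sqrt n * Real.log n)}).toReal)
    {b : ℝ} (hb : 0 < b) {nu : Measure ℝ} (hnu : IsProbabilityMeasure nu)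
    (hnu0 : nu (Set.Iic 0) = 0)
    (hconv : ∀ f : BoundedContinuousFunction ℝ ℝ,
      Tendsto (fun n : ℕ => ∫ q : (ℤ → ℕ → ℝ) × (ℕ → ℝ),
        f ((X q.1 q.2 n : ℝ) / (b * (Real.sqrt n * Real.log n))) ∂(P.prod marks))
        atTop (𝓝 (∫ y, f y ∂nu))) : False := by
  -- choose et with nu (Iic (2 et)) small
  have h1 : Tendsto (fun m : ℕ => nu (Set.Iic (2 * (1 / ((m : ℝ) + 1))))) atTop
      (𝓝 (nu (⋂ m : ℕ, Set.Iic (2 * (1 / ((m : ℝ) + 1)))))) := by
    refine tendsto_measure_iInter_atTop (fun m => measurableSet_Iic.nullMeasurableSet) ?_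
      ⟨0, measure_ne_top _ _⟩
    intro m m' hmm
    refine Set.Iic_subset_Iic.2 ?_
    have : (m : ℝ) ≤ m' := by exact_mod_cast hmm
    have h2 : 1 / ((m' : ℝ) + 1) ≤ 1 / ((m : ℝ) + 1) :=
      one_div_le_one_div_of_le (by positivity) (by linarith)
    linarith
  have h2 : (⋂ m : ℕ, Set.Iic (2 * (1 / ((m : ℝ) + 1)))) = Set.Iic (0 : ℝ) := by
    ext y
    simp only [Set.mem_iInter, Set.mem_Iic]
    constructor
    · intro hy
      have h3 : Tendsto (fun m : ℕ => 2 * (1 / ((m : ℝ) + 1))) atTop (𝓝 (2 * 0)) :=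
        tendsto_one_div_add_atTop_nhds_zero_nat.const_mul 2
      rw [mul_zero] at h3
      exact ge_of_tendsto' h3 hy
    · intro hy m
      exact hy.trans (by positivity)
  rw [h2, hnu0] at h1
  obtain ⟨m, hm⟩ := ((tendsto_order.1 h1).2 (ENNReal.ofReal (1 / 10)) (by simp)).exists
  set et : ℝ := 1 / ((m : ℝ) + 1) with het
  have het0 : 0 < et := by positivity
  have h3 : ∫ y, cut et y ∂nu ≤ 1 / 10 := by
    have h4 : ∫ y, cut et y ∂nu ≤ ∫ y, (Set.Iic (2 * et)).indicator (fun _ => (1 : ℝ)) y ∂nu := by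
      refine integral_mono ((cut et).integrable nu)
        ((integrable_const (1 : ℝ)).indicator measurableSet_Iic) ?_
      intro y
      by_cases hy : y ≤ 2 * et
      · rw [Set.indicator_of_mem (show y ∈ Set.Iic (2 * et) from hy)]
        exact cut_le_one et y
      · rw [Set.indicator_of_notMem (show y ∉ Set.Iic (2 * et) from hy)]
        exact (cut_zero het0 (le_of_not_ge hy)).le
    refine h4.trans ?_
    rw [integral_indicator measurableSet_Iic]
    simp only [integral_const, smul_eq_mul, mul_one]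
    rw [Measure.real, Measure.restrict_apply_univ]
    exact ENNReal.toReal_le_of_le_ofReal (by norm_num) hm.le
  have h5 := (tendsto_order.1 (hconv (cut et))).2 (3 / 20) (by linarith)
  obtain ⟨n, hn1, hn2, hn3⟩ :=
    ((h (et * b) (by positivity)).and_eventually (h5.and (eventually_ge_atTop 2))).exists
  have hd : 0 < Real.sqrt n * Real.log n := by
    have h6 : (2 : ℝ) ≤ n := by exact_mod_cast hn3
    have h7 : 0 < Real.log n := Real.log_pos (by linarith)
    have h8 : 0 < Real.sqrt n := Real.sqrt_pos.2 (by linarith)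
    positivity
  set S : Set ((ℤ → ℕ → ℝ) × (ℕ → ℝ)) :=
    {q | (X q.1 q.2 n : ℝ) ≤ et * b * (Real.sqrt n * Real.log n)} with hS
  have hXm : Measurable (fun q : (ℤ → ℕ → ℝ) × (ℕ → ℝ) => (X q.1 q.2 n : ℝ)) :=
    (measurable_from_top (f := fun z : ℤ => (z : ℝ))).comp (hms n)
  have hSm : MeasurableSet S := measurableSet_le hXm measurable_const
  have h6 : ((P.prod marks) S).toReal ≤ ∫ q : (ℤ → ℕ → ℝ) × (ℕ → ℝ),
      cut et ((X q.1 q.2 n : ℝ) / (b * (Real.sqrt n * Real.log n))) ∂(P.prod marks) := by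
    have h7 : ((P.prod marks) S).toReal
        = ∫ q, S.indicator (fun _ => (1 : ℝ)) q ∂(P.prod marks) := by
      rw [integral_indicator hSm]
      simp only [integral_const, smul_eq_mul, mul_one]
      rw [Measure.real, Measure.restrict_apply_univ]
    rw [h7]
    refine integral_mono ((integrable_const (1 : ℝ)).indicator hSm) ?_ ?_
    · refine Integrable.of_bound
        (((cut et).continuous.measurable.comp (hXm.div_const _)).aestronglyMeasurable) 1 ?_
      refine Eventually.of_forall fun q => ?_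
      rw [Real.norm_eq_abs]
      show |cut et ((X q.1 q.2 n : ℝ) / (b * (Real.sqrt n * Real.log n)))| ≤ 1
      rw [abs_of_nonneg (cut_nonneg _ _)]
      exact cut_le_one _ _
    · intro q
      by_cases hq : q ∈ S
      · rw [Set.indicator_of_mem hq]
        have h8 : (X q.1 q.2 n : ℝ) / (b * (Real.sqrt n * Real.log n)) ≤ et := by
          rw [div_le_iff₀ (by positivity)]
          have h9 : (X q.1 q.2 n : ℝ) ≤ et * b * (Real.sqrt n * Real.log n) := hq
          linarith
        exact (cut_one het0 h8).ge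
      · rw [Set.indicator_of_notMem hq]
        exact cut_nonneg _ _
  linarith

end Pool.Agent.N940.EW.Nc
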