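import Pool.Agent.N940.EW.Fin
import Pool.Agent.N940.EW.Mart
import Pool.Agent.N940.EW.Meas
import Pool.Agent.N940.EW.Det
import Pool.Agent.N940.EW.Cnt
import Pool.Agent.N940.EW.Lio
import Pool.Agent.N940.EW.Erg
import Pool.Agent.N940.EW.Nc

/-!
Project EW: conclusion.
-/

open MeasureTheory ProbabilityTheory Filter Topology

namespace Pool.Agent.N940.EW.Main0

open Pool.Agent.N940.EW

theorem fin : S_FIN := Fin.main Mart.main Meas.main Det.main Cnt.main Lio.main Lio.mgd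

theorem erg : S_ERG := Erg.main

theorem par : S_PAR := Meas.par

theorem noconv {th b : ℝ} {nu : Measure ℝ} (hP : IsProbabilityMeasure (lawE th))
    (hth : ∀ et : ℝ, 0 < et → ∃ᶠ n : ℕ in atTop,
      (1 / 5 : ℝ) ≤ (((lawE th).prod marks)
        {q | (X q.1 q.2 n : ℝ) ≤ et * (Real.sqrt n * Real.log n)}).toReal)
    (hb : 0 < b) (hnu : IsProbabilityMeasure nu) (hnu0 : nu (Set.Iic 0) = 0)
    (hconv : ∀ f : BoundedContinuousFunction ℝ ℝ,
      Tendsto (fun n : ℕ => ∫ q : (ℤ → ℕ → ℝ) × (ℕ → ℝ),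
        f ((X q.1 q.2 n : ℝ) / (b * (Real.sqrt n * Real.log n))) ∂((lawE th).prod marks))
        atTop (𝓝 (∫ y, f y ∂nu))) : False :=
  Nc.noconv hP (fun n => (Meas.main n).1) hth hb hnu hnu0 hconv

end Pool.Agent.N940.EW.Main0
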